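import Mathlib
import Pool.Agent.H740R3.BQStmts

set_option autoImplicit false

open Filter Topology

namespace Pool.Agent.H403R5

open Pool.Agent.H740R3.BQ

theorem choose_lim (k : ℕ) :
    Tendsto (fun n : ℕ => (n.choose k : ℝ) / (n : ℝ) ^ k) atTop (𝓝 (1 / (k.factorial : ℝ))) := by
  have h1 := isEquivalent_choose k
  rw [Asymptotics.isEquivalent_iff_tendsto_one] at h1
  · have h2 := h1.mul_const (1 / (k.factorial : ℝ))
    rw [one_mul] at h2
    refine h2.congr' ?_
    filter_upwards [eventually_gt_atTop 0] with n hn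
    have hn' : (n : ℝ) ≠ 0 := by exact_mod_cast hn.ne'
    have hk : (k.factorial : ℝ) ≠ 0 := by exact_mod_cast k.factorial_ne_zero
    simp only [Pi.div_apply]
    field_simp
  · filter_upwards [eventually_gt_atTop 0] with n hn
    have hn' : (n : ℝ) ≠ 0 := by exact_mod_cast hn.ne'
    have hk : (k.factorial : ℝ) ≠ 0 := by exact_mod_cast k.factorial_ne_zero
    positivity

theorem t0 : T0 := by
  intro d p hd k
  have hν : Tendsto (fun ν : ℕ => ν ^ (2 * d)) atTop atTop :=
    tendsto_pow_atTop (by omega)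
  have h1 : Tendsto (fun n : ℕ => (n.choose k : ℂ) / (n : ℂ) ^ k) atTop
      (𝓝 (1 / (k.factorial : ℂ))) := by
    have h := (Complex.continuous_ofReal.tendsto _).comp (choose_lim k)
    refine (h.congr ?_).trans (le_of_eq ?_)
    · intro n
      simp
    · simp
  have h2 : Tendsto (fun n : ℕ => p k / (n : ℂ) ^ k) atTop (𝓝 (if k = 0 then p 0 else 0)) := by
    by_cases hk : k = 0
    · subst hk
      simp
    · rw [if_neg hk]
      have h3 : Tendsto (fun n : ℕ => ((n : ℂ) ^ k)⁻¹) atTop (𝓝 0) := by
        rw [tendsto_zero_iff_norm_tendsto_zero]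
        have h4 : Tendsto (fun n : ℕ => ((n : ℝ) ^ k)⁻¹) atTop (𝓝 0) :=
          tendsto_inv_atTop_zero.comp ((tendsto_pow_atTop hk).comp tendsto_natCast_atTop_atTop)
        refine h4.congr fun n => ?_
        simp
      have h5 := h3.const_mul (p k)
      rw [mul_zero] at h5
      exact h5.congr fun n => by rw [div_eq_mul_inv]
  exact (h1.sub h2).comp hν

end Pool.Agent.H403R5
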